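import Pool.Agent.TH838.J1549B

/-!
# Representability in Robinson arithmetic (job 1549)
-/

set_option autoImplicit false

namespace Pool.Agent.TH838.J1549

open Pool.Agent.TH672 Pool.Agent.TH636.BC Fm

variable {S : Str ℕ}

/-! ### numerals -/

theorem sat_blk (q : Q S) {ψ : Fml} (h1 : ¬ ψ.Free 1) (v : ℕ → S.M) :
    Sat S (blk ψ) v ↔ Sat S ψ (upd v 0 (q.s (v 0))) := by
  have e : ∀ b, Sat S ψ (upd (upd v 1 b) 0 b) ↔ Sat S ψ (upd v 0 b) := fun b =>
    sat_cong fun x hx => by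
      have hx1 : x ≠ 1 := fun e => h1 (e ▸ hx)
      by_cases h0 : x = 0
      · subst h0; simp
      · rw [upd_ne _ _ h0, upd_ne _ _ h0, upd_ne _ _ hx1]
  have e0 : ∀ b, upd v 1 b 0 = v 0 := fun b => upd_ne _ _ (by decide)
  have e1 : ∀ b a, upd (upd v 1 b) 0 a 1 = b := fun b a => by
    rw [upd_ne _ _ (by decide), upd_same]
  simp only [blk, sat_all, sat_imp, sat_succ, sat_eq, q.succ_iff, upd_same, e0, e1]
  constructor
  · intro h
    rw [← e]
    exact h _ rfl _ rfl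
  · rintro h b rfl a rfl
    rw [e]
    exact h

theorem not_free_blk (ψ : Fml) : ¬ (blk ψ).Free 1 := by
  simp [blk, Fm.Free]

theorem not_free_iter {ψ : Fml} (h1 : ¬ ψ.Free 1) : ∀ n : ℕ, ¬ (blk^[n] ψ).Free 1
  | 0 => h1
  | n + 1 => by rw [Function.iterate_succ_apply']; exact not_free_blk _

theorem sat_iter (q : Q S) {ψ : Fml} (h1 : ¬ ψ.Free 1) : ∀ (n : ℕ) (v : ℕ → S.M),
    Sat S (blk^[n] ψ) v ↔ Sat S ψ (upd v 0 (q.s^[n] (v 0)))
  | 0, v => by
    rw [Function.iterate_zero, Function.iterate_zero, id, id, upd_self]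
  | n + 1, v => by
    rw [Function.iterate_succ_apply', sat_blk q (not_free_iter h1 n), sat_iter q h1 n,
      Function.iterate_succ_apply, upd_same, upd_upd]

theorem iter_nm (q : Q S) : ∀ n : ℕ, q.s^[n] q.o = q.nm n
  | 0 => rfl
  | n + 1 => by rw [Function.iterate_succ_apply', iter_nm q n]; rfl

theorem free_blk {ψ : Fml} {y : ℕ} (h : (blk ψ).Free y) : y = 0 ∨ ψ.Free y := by
  simp only [blk, Fm.Free] at h
  tauto

theorem free_iter {ψ : Fml} {y : ℕ} : ∀ n : ℕ, (blk^[n] ψ).Free y → y = 0 ∨ ψ.Free y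
  | 0, h => .inr h
  | n + 1, h => by
    rw [Function.iterate_succ_apply'] at h
    rcases free_blk h with h | h
    · exact .inl h
    · exact free_iter n h

theorem free_inst {x n y : ℕ} {φ : Fml} (h : (inst x n φ).Free y) :
    y ≠ 0 ∧ y ≠ x ∧ φ.Free y := by
  simp only [TH636.BC.inst, Fm.Free] at h
  obtain ⟨h0, h | h⟩ := h
  · exact absurd h h0
  · rcases free_iter n h with h | h
    · exact absurd h h0
    · simp only [Fm.Free] at h
      tauto

theorem sat_inst (q : Q S) {φ : Fml} {x : ℕ} (hx : 2 ≤ x) (h0 : ¬ φ.Free 0) (h1 : ¬ φ.Free 1)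
    (n : ℕ) (v : ℕ → S.M) : Sat S (inst x n φ) v ↔ Sat S φ (upd v x (q.nm n)) := by
  have hψ : ¬ (Fm.all x (.imp (.eq x 0) φ)).Free 1 := by
    simp only [Fm.Free, not_and]
    intro hx1 h
    rcases h with (h | h) | h
    · omega
    · omega
    · exact h1 h
  simp only [TH636.BC.inst, sat_all, sat_imp, sat_zero, q.zero_iff, upd_same, forall_eq]
  rw [sat_iter q hψ, upd_same, upd_upd, iter_nm]
  simp only [sat_all, sat_imp, sat_eq, upd_same, upd_ne _ _ (show 0 ≠ x by omega), forall_eq]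
  refine sat_cong fun y hy => ?_
  by_cases hyx : y = x
  · rw [hyx, upd_same, upd_same]
  · have hy0 : y ≠ 0 := fun e => h0 (e ▸ hy)
    rw [upd_ne _ _ hyx, upd_ne _ _ hyx, upd_ne _ _ hy0]

/-! ### the formula -/

/-- Rosser's formula -/
def P (t u t' u' : Tm ℕ) (N : ℕ) : Fml :=
  .ex N (.and (exB N (List.range' 5 (N - 5)) (eqF t u (N + 1)))
    (.neg (exB N (List.range' 5 (N - 5)) (eqF t' u' (N + 1)))))

theorem arith_P (t u t' u' : Tm ℕ) (N : ℕ) : Arith (P t u t' u' N) := by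
  simp [P, Fm.ex, Fm.and, Fm.neg, Arith, arith_exB, arith_eqF]

theorem free_P {t u t' u' : Tm ℕ} {N : ℕ}
    (h : ∀ i ∈ t.vars ++ u.vars, 2 ≤ i ∧ i < N) (h' : ∀ i ∈ t'.vars ++ u'.vars, 2 ≤ i ∧ i < N)
    (x : ℕ) (hx : (P t u t' u' N).Free x) : x = 2 ∨ x = 3 ∨ x = 4 := by
  simp only [P, Fm.ex, Fm.and, Fm.neg, Fm.Free, or_false] at hx
  obtain ⟨hN, hx⟩ := hx
  have key : (2 ≤ x ∧ x < N) ∧ x ∉ List.range' 5 (N - 5) := by
    rcases hx with hx | hx
    · rcases free_exB _ _ _ _ hx with h1 | ⟨h1, h2⟩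
      · exact absurd h1 hN
      · exact ⟨h x (free_eqF _ _ _ _ h1), h2⟩
    · rcases free_exB _ _ _ _ hx with h1 | ⟨h1, h2⟩
      · exact absurd h1 hN
      · exact ⟨h' x (free_eqF _ _ _ _ h1), h2⟩
  obtain ⟨⟨h2, h3⟩, h4⟩ := key
  rw [List.mem_range'_1] at h4
  omega

theorem descend (q : Q S) {t u : Tm ℕ} {N : ℕ} (h : ∀ i ∈ t.vars ++ u.vars, 2 ≤ i ∧ i < N)
    {x : ℕ → S.M} (hx : ∀ i, 2 ≤ i → i < N → ∃ k, x i = q.nm k) (he : q.ev t x = q.ev u x) :
    ∃ w : ℕ → ℕ, (∀ i, 2 ≤ i → i < N → x i = q.nm (w i)) ∧ t.ev w = u.ev w := by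
  classical
  let w : ℕ → ℕ := fun i => if hi : ∃ k, x i = q.nm k then hi.choose else 0
  have hw : ∀ i, 2 ≤ i → i < N → x i = q.nm (w i) := by
    intro i h1 h2
    have hi := hx i h1 h2
    simp only [w, dif_pos hi]
    exact hi.choose_spec
  refine ⟨w, hw, ?_⟩
  apply q.nm_inj
  rw [← q.ev_nm, ← q.ev_nm]
  have e1 : q.ev t x = q.ev t fun i => q.nm (w i) := q.ev_congr t x _ fun i hi => by
    have := h i (List.mem_append_left _ hi)
    exact hw i this.1 this.2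
  have e2 : q.ev u x = q.ev u fun i => q.nm (w i) := q.ev_congr u x _ fun i hi => by
    have := h i (List.mem_append_right _ hi)
    exact hw i this.1 this.2
  rw [← e1, ← e2, he]

/-- the bound -/
theorem exists_bound (w : ℕ → ℕ) (N : ℕ) : ∃ B, ∀ i < N, w i ≤ B :=
  ⟨(Finset.range N).sup w, fun _ hi => Finset.le_sup (f := w) (Finset.mem_range.2 hi)⟩

theorem ev_mix (q : Q S) {t u : Tm ℕ} {N : ℕ} (h : ∀ i ∈ t.vars ++ u.vars, 2 ≤ i ∧ i < N)
    {w : ℕ → ℕ} {x : ℕ → S.M} (hx : ∀ i, 2 ≤ i → i < N → x i = q.nm (w i))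
    (he : t.ev w = u.ev w) : q.ev t x = q.ev u x := by
  have h1 : q.ev t x = q.nm (t.ev w) := by
    rw [← q.ev_nm]
    exact q.ev_congr t _ _ fun i hi =>
      hx i (h i (List.mem_append_left _ hi)).1 (h i (List.mem_append_left _ hi)).2
  have h2 : q.ev u x = q.nm (u.ev w) := by
    rw [← q.ev_nm]
    exact q.ev_congr u _ _ fun i hi =>
      hx i (h i (List.mem_append_right _ hi)).1 (h i (List.mem_append_right _ hi)).2
  rw [h1, h2, he]

theorem sat_P_pos (q : Q S) {t u t' u' : Tm ℕ} {N : ℕ} (hN : 5 ≤ N)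
    (h : ∀ i ∈ t.vars ++ u.vars, 2 ≤ i ∧ i < N) (h' : ∀ i ∈ t'.vars ++ u'.vars, 2 ≤ i ∧ i < N)
    {c m d : ℕ} {v : ℕ → S.M} (v2 : v 2 = q.nm c) (v3 : v 3 = q.nm m) (v4 : v 4 = q.nm d)
    {w : ℕ → ℕ} (w2 : w 2 = c) (w3 : w 3 = m) (w4 : w 4 = d) (hw : t.ev w = u.ev w)
    (hneg : ∀ w' : ℕ → ℕ, w' 2 = c → w' 3 = m → w' 4 = d → t'.ev w' ≠ u'.ev w') :
    Sat S (P t u t' u' N) v := by
  classical
  obtain ⟨B, hB⟩ := exists_bound w N
  have hL : ∀ y ∈ List.range' 5 (N - 5), y < N := fun y hy => by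
    rw [List.mem_range'_1] at hy; omega
  simp only [P, sat_ex, sat_and, sat_neg]
  refine ⟨q.nm B, ?_, ?_⟩
  · rw [sat_exB q _ _ _ _ hL]
    refine ⟨fun y => if y ∈ List.range' 5 (N - 5) then q.nm (w y) else upd v N (q.nm B) y,
      fun y hy => if_neg hy, fun y hy => ?_, ?_⟩
    · simp only [if_pos hy, upd_same]
      exact q.nm_le (hB y (hL y hy))
    · rw [sat_eqF q _ _ _ _ fun i hi => (h i hi).2.trans (by omega)]
      refine ev_mix q h (w := w) (fun i h1 h2 => ?_) hw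
      simp only [List.mem_range'_1]
      split_ifs with h3
      · rfl
      · rw [upd_ne _ _ h2.ne]
        have : i = 2 ∨ i = 3 ∨ i = 4 := by omega
        rcases this with rfl | rfl | rfl
        · rw [v2, w2]
        · rw [v3, w3]
        · rw [v4, w4]
  · rw [sat_exB q _ _ _ _ hL]
    rintro ⟨x, h1, h2, h3⟩
    rw [sat_eqF q _ _ _ _ fun i hi => (h' i hi).2.trans (by omega)] at h3
    have hx : ∀ i, i < 5 → x i = v i := fun i hi => by
      rw [h1 i (by rw [List.mem_range'_1]; omega), upd_ne _ _ (by omega)]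
    obtain ⟨w', hw1, hw2⟩ := descend q h' (x := x) (fun i hi2 hiN => by
      by_cases h5 : 5 ≤ i
      · obtain ⟨k, -, hk⟩ := q.le_nm (by
          simpa using h2 i (by rw [List.mem_range'_1]; omega))
        exact ⟨k, hk⟩
      · have : i = 2 ∨ i = 3 ∨ i = 4 := by omega
        rcases this with rfl | rfl | rfl
        · exact ⟨c, (hx _ (by omega)).trans v2⟩
        · exact ⟨m, (hx _ (by omega)).trans v3⟩
        · exact ⟨d, (hx _ (by omega)).trans v4⟩) h3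
    refine hneg w' ?_ ?_ ?_ hw2
    · exact q.nm_inj (((hw1 2 (by omega) (by omega)).symm.trans (hx _ (by omega))).trans v2)
    · exact q.nm_inj (((hw1 3 (by omega) (by omega)).symm.trans (hx _ (by omega))).trans v3)
    · exact q.nm_inj (((hw1 4 (by omega) (by omega)).symm.trans (hx _ (by omega))).trans v4)

theorem sat_P_neg (q : Q S) {t u t' u' : Tm ℕ} {N : ℕ} (hN : 5 ≤ N)
    (h : ∀ i ∈ t.vars ++ u.vars, 2 ≤ i ∧ i < N) (h' : ∀ i ∈ t'.vars ++ u'.vars, 2 ≤ i ∧ i < N)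
    {c m d : ℕ} {v : ℕ → S.M} (v2 : v 2 = q.nm c) (v3 : v 3 = q.nm m) (v4 : v 4 = q.nm d)
    {w : ℕ → ℕ} (w2 : w 2 = c) (w3 : w 3 = m) (w4 : w 4 = d) (hw : t'.ev w = u'.ev w)
    (hneg : ∀ w' : ℕ → ℕ, w' 2 = c → w' 3 = m → w' 4 = d → t.ev w' ≠ u.ev w') :
    ¬ Sat S (P t u t' u' N) v := by
  classical
  obtain ⟨B, hB⟩ := exists_bound w N
  have hL : ∀ y ∈ List.range' 5 (N - 5), y < N := fun y hy => by
    rw [List.mem_range'_1] at hy; omega
  simp only [P, sat_ex, sat_and, sat_neg]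
  rintro ⟨b, hb1, hb2⟩
  rcases q.total b B with hb | hb
  · rw [sat_exB q _ _ _ _ hL] at hb1
    obtain ⟨x, h1, h2, h3⟩ := hb1
    rw [sat_eqF q _ _ _ _ fun i hi => (h i hi).2.trans (by omega)] at h3
    obtain ⟨j, -, rfl⟩ := q.le_nm hb
    have hx : ∀ i, i < 5 → x i = v i := fun i hi => by
      rw [h1 i (by rw [List.mem_range'_1]; omega), upd_ne _ _ (by omega)]
    obtain ⟨w', hw1, hw2⟩ := descend q h (x := x) (fun i hi2 hiN => by
      by_cases h5 : 5 ≤ i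
      · obtain ⟨k, -, hk⟩ := q.le_nm (by
          simpa using h2 i (by rw [List.mem_range'_1]; omega))
        exact ⟨k, hk⟩
      · have : i = 2 ∨ i = 3 ∨ i = 4 := by omega
        rcases this with rfl | rfl | rfl
        · exact ⟨c, (hx _ (by omega)).trans v2⟩
        · exact ⟨m, (hx _ (by omega)).trans v3⟩
        · exact ⟨d, (hx _ (by omega)).trans v4⟩) h3
    refine hneg w' ?_ ?_ ?_ hw2
    · exact q.nm_inj (((hw1 2 (by omega) (by omega)).symm.trans (hx _ (by omega))).trans v2)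
    · exact q.nm_inj (((hw1 3 (by omega) (by omega)).symm.trans (hx _ (by omega))).trans v3)
    · exact q.nm_inj (((hw1 4 (by omega) (by omega)).symm.trans (hx _ (by omega))).trans v4)
  · apply hb2
    rw [sat_exB q _ _ _ _ hL]
    refine ⟨fun y => if y ∈ List.range' 5 (N - 5) then q.nm (w y) else upd v N b y,
      fun y hy => if_neg hy, fun y hy => ?_, ?_⟩
    · simp only [if_pos hy, upd_same]
      exact q.nm_le_of (hB y (hL y hy)) hb
    · rw [sat_eqF q _ _ _ _ fun i hi => (h' i hi).2.trans (by omega)]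
      refine ev_mix q h' (w := w) (fun i h1 h2 => ?_) hw
      simp only [List.mem_range'_1]
      split_ifs with h3
      · rfl
      · rw [upd_ne _ _ h2.ne]
        have : i = 2 ∨ i = 3 ∨ i = 4 := by omega
        rcases this with rfl | rfl | rfl
        · rw [v2, w2]
        · rw [v3, w3]
        · rw [v4, w4]

/-! ### proofs -/

theorem step_mono {Γ π π' : List Fml} {φ : Fml} (h : TH636.BC.Step Γ π φ)
    (hπ : ∀ ψ ∈ π, ψ ∈ π') : TH636.BC.Step Γ π' φ := by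
  rcases h with h | h | ⟨ψ, h1, h2⟩ | ⟨ψ, h1, h2⟩
  · exact .inl h
  · exact .inr (.inl h)
  · exact .inr (.inr (.inl ⟨ψ, hπ _ h1, hπ _ h2⟩))
  · exact .inr (.inr (.inr ⟨ψ, hπ _ h1, h2⟩))

theorem isProof_append {Γ : List Fml} : ∀ {A B : List Fml}, TH636.BC.IsProof Γ A →
    TH636.BC.IsProof Γ B → TH636.BC.IsProof Γ (A ++ B)
  | [], _, _, h => h
  | _ :: _, _, ⟨h1, h2⟩, h =>
    ⟨isProof_append h1 h, step_mono h2 fun _ hx => List.mem_append_left _ hx⟩

theorem pv_proof {Γ : List Fml} {φ : Fml} (h : Pv (fun ψ => ψ ∈ Γ) φ) :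
    ∃ π, TH636.BC.IsProof Γ (φ :: π) := by
  induction h with
  | ax h => exact ⟨[], trivial, .inl h⟩
  | log h => exact ⟨[], trivial, .inr (.inl h)⟩
  | @mp φ ψ _ _ ih1 ih2 =>
    obtain ⟨π1, h1⟩ := ih1
    obtain ⟨π2, h2⟩ := ih2
    exact ⟨(φ.imp ψ :: π1) ++ (φ :: π2), isProof_append h1 h2,
      .inr (.inr (.inl ⟨φ, by simp, by simp⟩))⟩
  | gen x _ ih =>
    obtain ⟨π, h⟩ := ih
    exact ⟨_ :: π, h, .inr (.inr (.inr ⟨_, by simp, x, rfl⟩))⟩

theorem closed_robinson : ∀ ψ ∈ TH636.BC.robinson, ψ.Closed := by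
  simp only [TH636.BC.robinson, List.mem_cons, List.not_mem_nil, or_false, forall_eq_or_imp,
    forall_eq, Fm.Closed, Fm.Free, Fm.ex, Fm.or, Fm.neg]
  refine ⟨?_, ?_, ?_, ?_, ?_, ?_, ?_, ?_, ?_, ?_, ?_, ?_, ?_, ?_, ?_⟩ <;> intro x <;> omega

theorem proves_of {φ : Fml} (hφ : φ.Closed)
    (h : ∀ (S : Str ℕ) (_ : Q S) (v : ℕ → S.M), Sat S φ v) :
    ∃ k, TH636.BC.Proves TH636.BC.robinson k φ := by
  obtain ⟨π, hπ⟩ := pv_proof (Pool.Agent.TH690.J100.completeness TH636.BC.robinson φ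
    closed_robinson hφ fun S v hS => by
      obtain ⟨q⟩ := exists_Q v hS
      exact h S q v)
  exact ⟨_, π, hπ, le_rfl⟩

theorem sat_inst3 (q : Q S) {φ : Fml} (hφ : ∀ x, φ.Free x → x = 2 ∨ x = 3 ∨ x = 4)
    (c m d : ℕ) (v : ℕ → S.M) :
    Sat S (TH636.BC.inst 2 c (TH636.BC.inst 3 m (TH636.BC.inst 4 d φ))) v ↔
      Sat S φ (upd (upd (upd v 2 (q.nm c)) 3 (q.nm m)) 4 (q.nm d)) := by
  have h0 : ¬ φ.Free 0 := fun h => by have := hφ 0 h; omega
  have h1 : ¬ φ.Free 1 := fun h => by have := hφ 1 h; omega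
  rw [sat_inst q (by omega) (fun h => (free_inst h).1 rfl)
    (fun h => h1 (free_inst (free_inst h).2.2).2.2),
    sat_inst q (by omega) (fun h => (free_inst h).1 rfl) (fun h => h1 (free_inst h).2.2),
    sat_inst q (by omega) h0 h1]

theorem closed_inst3 {φ : Fml} (hφ : ∀ x, φ.Free x → x = 2 ∨ x = 3 ∨ x = 4)
    (c m d : ℕ) :
    (TH636.BC.inst 2 c (TH636.BC.inst 3 m (TH636.BC.inst 4 d φ))).Closed := by
  intro x hx
  have h2 := free_inst hx
  have h3 := free_inst h2.2.2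
  have h4 := free_inst h3.2.2
  have h5 := hφ x h4.2.2
  have e2 := h2.2.1
  have e3 := h3.2.1
  have e4 := h4.2.1
  omega

/-- Representability in Robinson arithmetic. -/
theorem repr : Repr := by
  intro R hR hR'
  obtain ⟨t, u, h, hR1⟩ := normal R hR
  obtain ⟨t', u', h', hR2⟩ := normal (fun c m d => ¬ R c m d) hR'
  obtain ⟨N, hN5, hN⟩ : ∃ N, 5 ≤ N ∧ ∀ i ∈ (t.vars ++ u.vars) ++ (t'.vars ++ u'.vars), i < N := by
    refine ⟨max 5 ((((t.vars ++ u.vars) ++ (t'.vars ++ u'.vars)).toFinset.sup id) + 1),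
      le_max_left _ _, fun i hi => ?_⟩
    have := Finset.le_sup (f := id) (List.mem_toFinset.2 hi)
    simp only [id] at this
    exact lt_max_of_lt_right (Nat.lt_succ_of_le this)
  have b1 : ∀ i ∈ t.vars ++ u.vars, 2 ≤ i ∧ i < N := fun i hi =>
    ⟨h i hi, hN i (List.mem_append_left _ hi)⟩
  have b2 : ∀ i ∈ t'.vars ++ u'.vars, 2 ≤ i ∧ i < N := fun i hi =>
    ⟨h' i hi, hN i (List.mem_append_right _ hi)⟩
  have hfree := free_P b1 b2
  have hfree' : ∀ x, (P t u t' u' N).neg.Free x → x = 2 ∨ x = 3 ∨ x = 4 := fun x hx => by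
    simp only [Fm.neg, Fm.Free, or_false] at hx
    exact hfree x hx
  refine ⟨P t u t' u' N, arith_P _ _ _ _ _, hfree, fun c m d hc => ?_, fun c m d hc => ?_⟩
  · obtain ⟨w, w2, w3, w4, hw⟩ := (hR1 c m d).1 hc
    refine proves_of (closed_inst3 hfree c m d) fun S q v => ?_
    rw [sat_inst3 q hfree]
    refine sat_P_pos q hN5 b1 b2 ?_ ?_ ?_ w2 w3 w4 hw fun w' e2 e3 e4 e =>
      (hR2 c m d).2 ⟨w', e2, e3, e4, e⟩ hc
    · rw [upd_ne _ _ (by omega), upd_ne _ _ (by omega), upd_same]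
    · rw [upd_ne _ _ (by omega), upd_same]
    · rw [upd_same]
  · obtain ⟨w, w2, w3, w4, hw⟩ := (hR2 c m d).1 hc
    refine proves_of (closed_inst3 hfree' c m d) fun S q v => ?_
    rw [sat_inst3 q hfree', sat_neg]
    refine sat_P_neg q hN5 b1 b2 ?_ ?_ ?_ w2 w3 w4 hw fun w' e2 e3 e4 e =>
      hc ((hR1 c m d).2 ⟨w', e2, e3, e4, e⟩)
    · rw [upd_ne _ _ (by omega), upd_ne _ _ (by omega), upd_same]
    · rw [upd_ne _ _ (by omega), upd_same]
    · rw [upd_same]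

end Pool.Agent.TH838.J1549
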