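import Pool.Agent.TH636.BC.Cd
import Pool.Agent.TH690.J100
import Pool.Agent.Helper967.DxDPRM

/-!
# Representability in Robinson arithmetic: Diophantine normal form
-/

set_option autoImplicit false

namespace Pool.Agent.TH838.J1549

open Pool.Agent.TH672 Pool.Agent.TH636.BC

/-! ### terms -/

/-- terms -/
inductive Tm (γ : Type) : Type
  | v (i : γ) : Tm γ
  | z : Tm γ
  | s (t : Tm γ) : Tm γ
  | a (t u : Tm γ) : Tm γ
  | m (t u : Tm γ) : Tm γ

namespace Tm
variable {γ δ : Type}

/-- evaluation -/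
def ev : Tm γ → (γ → ℕ) → ℕ
  | v i, x => x i
  | z, _ => 0
  | s t, x => ev t x + 1
  | a t u, x => ev t x + ev u x
  | m t u, x => ev t x * ev u x

/-- variables -/
def vars : Tm γ → List γ
  | v i => [i]
  | z => []
  | s t => vars t
  | a t u => vars t ++ vars u
  | m t u => vars t ++ vars u

/-- renaming -/
def map (f : γ → δ) : Tm γ → Tm δ
  | v i => v (f i)
  | z => z
  | s t => s (map f t)
  | a t u => a (map f t) (map f u)
  | m t u => m (map f t) (map f u)

theorem ev_map (f : γ → δ) (t : Tm γ) (x : δ → ℕ) : (t.map f).ev x = t.ev (x ∘ f) := by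
  induction t <;> simp_all [map, ev]

theorem vars_map (f : γ → δ) (t : Tm γ) : (t.map f).vars = t.vars.map f := by
  induction t <;> simp_all [map, vars]

theorem ev_congr (t : Tm γ) (x y : γ → ℕ) (h : ∀ i ∈ t.vars, x i = y i) : t.ev x = t.ev y := by
  induction t with
  | v i => simpa [ev, vars] using h
  | z => rfl
  | s t ih => simp only [ev]; rw [ih (by simpa [vars] using h)]
  | a t u iht ihu =>
    simp only [vars, List.mem_append] at h
    simp only [ev]; rw [iht fun i hi => h i (.inl hi), ihu fun i hi => h i (.inr hi)]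
  | m t u iht ihu =>
    simp only [vars, List.mem_append] at h
    simp only [ev]; rw [iht fun i hi => h i (.inl hi), ihu fun i hi => h i (.inr hi)]

/-- numerals -/
def nm : ℕ → Tm γ
  | 0 => z
  | n + 1 => s (nm n)

theorem ev_nm (n : ℕ) (x : γ → ℕ) : (nm n).ev x = n := by
  induction n <;> simp_all [nm, ev]

end Tm

theorem isPoly_tm {γ : Type} {f : (γ → ℕ) → ℤ} (h : IsPoly f) :
    ∃ t u : Tm γ, ∀ x, f x = (t.ev x : ℤ) - u.ev x := by
  induction h with
  | proj i => exact ⟨.v i, .z, fun x => by simp [Tm.ev]⟩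
  | const n =>
    rcases le_total 0 n with hn | hn
    · exact ⟨Tm.nm n.toNat, .z, fun x => by simp [Tm.ev, Tm.ev_nm, hn]⟩
    · refine ⟨.z, Tm.nm (-n).toNat, fun x => ?_⟩
      simp only [Tm.ev, Tm.ev_nm]
      omega
  | sub hf hg ihf ihg =>
    obtain ⟨t, u, h1⟩ := ihf
    obtain ⟨t', u', h2⟩ := ihg
    exact ⟨.a t u', .a u t', fun x => by
      simp only [h1, h2, Tm.ev]; push_cast; ring⟩
  | mul hf hg ihf ihg =>
    obtain ⟨t, u, h1⟩ := ihf
    obtain ⟨t', u', h2⟩ := ihg
    exact ⟨.a (.m t t') (.m u u'), .a (.m t u') (.m u t'), fun x => by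
      simp only [h1, h2, Tm.ev]; push_cast; ring⟩

theorem dioph3 (R : ℕ → ℕ → ℕ → Prop) (hR : REPred (fun x : ℕ × ℕ × ℕ => R x.1 x.2.1 x.2.2)) :
    Dioph {v : Fin 3 → ℕ | R (v 0) (v 1) (v 2)} := by
  have h1 : REPred (fun n : ℕ => R n.unpair.1 n.unpair.2.unpair.1 n.unpair.2.unpair.2) := by
    have hc : Computable (fun n : ℕ => (n.unpair.1, n.unpair.2.unpair.1, n.unpair.2.unpair.2)) := by
      have hu := Computable.unpair
      exact (Computable.fst.comp hu).pair
        ((Computable.fst.comp (hu.comp (Computable.snd.comp hu))).pair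
        (Computable.snd.comp (hu.comp (Computable.snd.comp hu))))
    exact Partrec.comp hR hc
  have h2 := Pool.Agent.Helper967.Dio.dprm h1
  have h3 : Dioph {v : Option (Fin 3) → ℕ | R (v none).unpair.1 (v none).unpair.2.unpair.1
      (v none).unpair.2.unpair.2} :=
    Dioph.ext (Dioph.reindex_dioph (Option (Fin 3)) (fun _ : Unit => none) h2) fun v => Iff.rfl
  have hf : Dioph.DiophFn fun v : Fin 3 → ℕ => Nat.pair (v 0) (Nat.pair (v 1) (v 2)) :=
    Pool.Agent.Helper967.Dio.pair_dioph (Dioph.proj_dioph 0)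
      (Pool.Agent.Helper967.Dio.pair_dioph (Dioph.proj_dioph 1) (Dioph.proj_dioph 2))
  refine Dioph.ext (Dioph.diophFn_comp1 h3 hf) fun v => ?_
  simp

open Classical in
theorem normal (R : ℕ → ℕ → ℕ → Prop)
    (hR : REPred (fun x : ℕ × ℕ × ℕ => R x.1 x.2.1 x.2.2)) :
    ∃ t u : Tm ℕ, (∀ i ∈ t.vars ++ u.vars, 2 ≤ i) ∧
      ∀ c m d, R c m d ↔ ∃ w : ℕ → ℕ, w 2 = c ∧ w 3 = m ∧ w 4 = d ∧ t.ev w = u.ev w := by
  obtain ⟨β, p, hp⟩ := dioph3 R hR
  obtain ⟨t, u, htu⟩ := isPoly_tm p.isPoly
  set L : List β := (t.vars ++ u.vars).filterMap Sum.getRight? with hL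
  set ρ : Fin 3 ⊕ β → ℕ := Sum.elim (fun i => 2 + i) (fun b => 5 + L.idxOf b) with hρ
  refine ⟨t.map ρ, u.map ρ, ?_, fun c m d => ?_⟩
  · intro i hi
    simp only [Tm.vars_map, List.mem_append, List.mem_map] at hi
    rcases hi with ⟨a, -, rfl⟩ | ⟨a, -, rfl⟩ <;> rcases a with a | a <;> simp [hρ] <;> omega
  · have h1 := hp ![c, m, d]
    have h2 : ![c, m, d] ∈ {v : Fin 3 → ℕ | R (v 0) (v 1) (v 2)} ↔ R c m d := by simp
    rw [← h2, h1]
    constructor
    · rintro ⟨x, hx⟩
      let w : ℕ → ℕ := fun n => if n = 2 then c else if n = 3 then m else if n = 4 then d else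
        (L[n - 5]?).elim 0 x
      have hw : ∀ i ∈ t.vars ++ u.vars, (w ∘ ρ) i = Sum.elim ![c, m, d] x i := by
        intro i hi
        rcases i with i | b
        · fin_cases i <;> simp [w, hρ]
        · have hb : b ∈ L := by
            rw [hL, List.mem_filterMap]
            exact ⟨_, hi, rfl⟩
          have hlt := List.idxOf_lt_length_of_mem hb
          have hr : ρ (Sum.inr b) = 5 + L.idxOf b := rfl
          have e2 : ¬ (5 + L.idxOf b = 2) := by omega
          have e3 : ¬ (5 + L.idxOf b = 3) := by omega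
          have e4 : ¬ (5 + L.idxOf b = 4) := by omega
          have hwv : w (5 + L.idxOf b) = (L[5 + L.idxOf b - 5]?).elim 0 x := by
            show (if 5 + L.idxOf b = 2 then c else if 5 + L.idxOf b = 3 then m else
              if 5 + L.idxOf b = 4 then d else (L[5 + L.idxOf b - 5]?).elim 0 x) = _
            simp only [e2, e3, e4, if_false]
          rw [Function.comp_apply, hr, hwv, Nat.add_sub_cancel_left,
            List.getElem?_eq_getElem hlt, List.getElem_idxOf hlt]
          rfl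
      refine ⟨w, rfl, rfl, rfl, ?_⟩
      rw [Tm.ev_map, Tm.ev_map,
        t.ev_congr _ _ fun i hi => hw i (List.mem_append_left _ hi),
        u.ev_congr _ _ fun i hi => hw i (List.mem_append_right _ hi)]
      have h3 := htu (Sum.elim ![c, m, d] x)
      have h4 : (p : (Fin 3 ⊕ β → ℕ) → ℤ) (Sum.elim ![c, m, d] x) = 0 := hx
      rw [h3] at h4
      omega
    · rintro ⟨w, h2, h3, h4, h5⟩
      refine ⟨fun b => w (5 + L.idxOf b), ?_⟩
      have h6 : Sum.elim ![c, m, d] (fun b => w (5 + L.idxOf b)) = w ∘ ρ := by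
        funext i
        rcases i with i | b
        · fin_cases i <;> simp [hρ, h2, h3, h4]
        · simp [hρ]
      rw [h6, htu, ← Tm.ev_map, ← Tm.ev_map, h5]
      simp

end Pool.Agent.TH838.J1549
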