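import Pool.Agent.TH838.J1549A

/-!
# Representability in Robinson arithmetic: structures
-/

set_option autoImplicit false

namespace Pool.Agent.TH838.J1549

open Pool.Agent.TH672 Pool.Agent.TH636.BC Fm

variable {S : Str ℕ}

theorem sat_cong : ∀ {φ : Fml} {v w : ℕ → S.M}, (∀ x, φ.Free x → v x = w x) →
    (Sat S φ v ↔ Sat S φ w)
  | .bot, _, _, _ => Iff.rfl
  | .eq x y, v, w, h => by
    rw [sat_eq, sat_eq, h x (Or.inl rfl), h y (Or.inr rfl)]
  | .zero x, v, w, h => by
    rw [sat_zero, sat_zero, h x rfl]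
  | .succ x y, v, w, h => by
    rw [sat_succ, sat_succ, h x (Or.inl rfl), h y (Or.inr rfl)]
  | .add x y z, v, w, h => by
    rw [sat_add, sat_add, h x (Or.inl rfl), h y (Or.inr (Or.inl rfl)), h z (Or.inr (Or.inr rfl))]
  | .mul x y z, v, w, h => by
    rw [sat_mul, sat_mul, h x (Or.inl rfl), h y (Or.inr (Or.inl rfl)), h z (Or.inr (Or.inr rfl))]
  | .op i a b c d, v, w, h => by
    rw [sat_op, sat_op, h a (Or.inl rfl), h b (Or.inr (Or.inl rfl)),
      h c (Or.inr (Or.inr (Or.inl rfl))), h d (Or.inr (Or.inr (Or.inr rfl)))]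
  | .imp φ ψ, v, w, h => by
    rw [sat_imp, sat_imp, sat_cong (φ := φ) fun x hx => h x (Or.inl hx),
      sat_cong (φ := ψ) fun x hx => h x (Or.inr hx)]
  | .all x φ, v, w, h => by
    rw [sat_all, sat_all]
    refine forall_congr' fun a => sat_cong fun y hy => ?_
    by_cases e : y = x
    · subst e; simp
    · rw [upd_ne _ _ e, upd_ne _ _ e]; exact h y ⟨e, hy⟩

/-- Robinson arithmetic with functions -/
structure Q (S : Str ℕ) where
  o : S.M
  s : S.M → S.M
  a : S.M → S.M → S.M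
  m : S.M → S.M → S.M
  zero_iff : ∀ x, S.zero x ↔ x = o
  succ_iff : ∀ x y, S.succ x y ↔ y = s x
  add_iff : ∀ x y z, S.add x y z ↔ z = a x y
  mul_iff : ∀ x y z, S.mul x y z ↔ z = m x y
  s_ne : ∀ x, s x ≠ o
  s_inj : ∀ x y, s x = s y → x = y
  cases : ∀ x, x = o ∨ ∃ y, x = s y
  a_o : ∀ x, a x o = x
  a_s : ∀ x y, a x (s y) = s (a x y)
  m_o : ∀ x, m x o = o
  m_s : ∀ x y, m x (s y) = a (m x y) x

theorem exists_Q (v : ℕ → S.M) (h : ∀ ψ ∈ TH636.BC.robinson, Sat S ψ v) : Nonempty (Q S) := by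
  simp only [TH636.BC.robinson, List.mem_cons, List.not_mem_nil, or_false, forall_eq_or_imp,
    forall_eq, sat_all, sat_ex, sat_imp, sat_zero, sat_succ, sat_add, sat_mul, sat_eq, sat_neg,
    sat_or] at h
  simp [upd] at h
  obtain ⟨⟨o, ho⟩, h0, h1, h2, h3, h4, h5, h6, h7, h8, h9, h10, h11, h12, h13⟩ := h
  choose s hs using h1
  choose a ha using h3
  choose m hm using h5
  have zi : ∀ x, S.zero x ↔ x = o := fun x => ⟨fun hx => h0 _ _ hx ho, fun e => e ▸ ho⟩
  have si : ∀ x y, S.succ x y ↔ y = s x :=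
    fun x y => ⟨fun hx => h2 _ _ _ hx (hs x), fun e => e ▸ hs x⟩
  have ai : ∀ x y z, S.add x y z ↔ z = a x y :=
    fun x y z => ⟨fun hx => h4 _ _ _ _ hx (ha x y), fun e => e ▸ ha x y⟩
  have mi : ∀ x y z, S.mul x y z ↔ z = m x y :=
    fun x y z => ⟨fun hx => h6 _ _ _ _ hx (hm x y), fun e => e ▸ hm x y⟩
  refine ⟨⟨o, s, a, m, zi, si, ai, mi, ?_, ?_, ?_, ?_, ?_, ?_, ?_⟩⟩
  · intro x e
    exact h7 x (s x) (hs x) (e ▸ ho)
  · intro x y e
    exact h8 x y (s x) (hs x) (e ▸ hs y)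
  · intro x
    rcases h9 x with hx | ⟨y, hy⟩
    · exact .inl ((zi x).1 hx)
    · exact .inr ⟨y, (si _ _).1 hy⟩
  · intro x
    exact ((ai _ _ _).1 (h10 x o ho)).symm
  · intro x y
    exact ((ai _ _ _).1 (h11 x y (s y) (a x y) (s (a x y)) (hs y) (ha x y) (hs _))).symm
  · intro x
    exact ((mi _ _ _).1 (h12 x o ho)).symm
  · intro x y
    exact ((mi _ _ _).1 (h13 x y (s y) (m x y) (a (m x y) x) (hs y) (hm x y) (ha _ _))).symm

namespace Q

variable (q : Q S)

/-- numerals -/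
def nm : ℕ → S.M
  | 0 => q.o
  | n + 1 => q.s (nm n)

theorem nm_add (i : ℕ) : ∀ j, q.a (q.nm i) (q.nm j) = q.nm (i + j)
  | 0 => q.a_o _
  | j + 1 => by
    show q.a (q.nm i) (q.s (q.nm j)) = q.s (q.nm (i + j))
    rw [q.a_s, nm_add i j]

theorem nm_mul (i : ℕ) : ∀ j, q.m (q.nm i) (q.nm j) = q.nm (i * j)
  | 0 => q.m_o _
  | j + 1 => by
    show q.m (q.nm i) (q.s (q.nm j)) = q.nm (i * j + i)
    rw [q.m_s, nm_mul i j, nm_add]

theorem nm_inj : ∀ {i j : ℕ}, q.nm i = q.nm j → i = j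
  | 0, 0, _ => rfl
  | 0, j + 1, h => absurd h.symm (q.s_ne _)
  | i + 1, 0, h => absurd h (q.s_ne _)
  | i + 1, j + 1, h => by rw [nm_inj (q.s_inj _ _ h)]

/-- order -/
def Le (x y : S.M) : Prop := ∃ z, q.a z x = y

theorem le_nm : ∀ {n : ℕ} {x : S.M}, q.Le x (q.nm n) → ∃ k ≤ n, x = q.nm k := by
  intro n
  induction n with
  | zero =>
    rintro x ⟨z, hz⟩
    rcases q.cases x with rfl | ⟨y, rfl⟩
    · exact ⟨0, le_rfl, rfl⟩
    · rw [q.a_s] at hz
      exact absurd hz (q.s_ne _)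
  | succ n ih =>
    rintro x ⟨z, hz⟩
    rcases q.cases x with rfl | ⟨y, rfl⟩
    · exact ⟨0, Nat.zero_le _, rfl⟩
    · rw [q.a_s] at hz
      obtain ⟨k, hk, rfl⟩ := ih ⟨z, q.s_inj _ _ hz⟩
      exact ⟨k + 1, by omega, rfl⟩

theorem nm_le {k n : ℕ} (h : k ≤ n) : q.Le (q.nm k) (q.nm n) :=
  ⟨q.nm (n - k), by rw [nm_add]; congr 1; omega⟩

theorem s_a (z : S.M) : ∀ n, q.a (q.s z) (q.nm n) = q.a z (q.nm (n + 1))
  | 0 => by
    show q.a (q.s z) q.o = q.a z (q.s q.o)
    rw [q.a_o, q.a_s, q.a_o]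
  | n + 1 => by
    show q.a (q.s z) (q.s (q.nm n)) = q.a z (q.s (q.nm (n + 1)))
    rw [q.a_s, s_a z n, q.a_s]

theorem total (w : S.M) : ∀ n, q.Le w (q.nm n) ∨ q.Le (q.nm n) w
  | 0 => .inr ⟨w, q.a_o w⟩
  | n + 1 => by
    rcases total w n with h | ⟨z, hz⟩
    · obtain ⟨k, hk, rfl⟩ := q.le_nm h
      exact .inl (q.nm_le (by omega))
    · rcases q.cases z with rfl | ⟨y, rfl⟩
      · left
        rw [← hz]
        show q.Le (q.a (q.nm 0) (q.nm n)) _
        rw [nm_add]
        exact q.nm_le (by omega)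
      · right
        exact ⟨y, by rw [← s_a, hz]⟩

theorem a_nm (z : S.M) (j : ℕ) : ∀ k, q.a z (q.nm (j + k)) = q.a (q.a z (q.nm j)) (q.nm k)
  | 0 => (q.a_o _).symm
  | k + 1 => by
    show q.a z (q.s (q.nm (j + k))) = q.a (q.a z (q.nm j)) (q.s (q.nm k))
    rw [q.a_s, q.a_s, a_nm z j k]

theorem nm_le_of {k n : ℕ} (h : k ≤ n) {w : S.M} (hw : q.Le (q.nm n) w) : q.Le (q.nm k) w := by
  obtain ⟨z, rfl⟩ := hw
  obtain ⟨j, rfl⟩ := Nat.exists_eq_add_of_le' h
  exact ⟨q.a z (q.nm j), (q.a_nm z j k).symm⟩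

/-- evaluation -/
def ev : Tm ℕ → (ℕ → S.M) → S.M
  | .v i, x => x i
  | .z, _ => q.o
  | .s t, x => q.s (ev t x)
  | .a t u, x => q.a (ev t x) (ev u x)
  | .m t u, x => q.m (ev t x) (ev u x)

theorem ev_congr (t : Tm ℕ) (x y : ℕ → S.M) (h : ∀ i ∈ t.vars, x i = y i) :
    q.ev t x = q.ev t y := by
  induction t with
  | v i => simpa [ev, Tm.vars] using h
  | z => rfl
  | s t ih => simp only [ev]; rw [ih (by simpa [Tm.vars] using h)]
  | a t u iht ihu =>
    simp only [Tm.vars, List.mem_append] at h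
    simp only [ev]; rw [iht fun i hi => h i (.inl hi), ihu fun i hi => h i (.inr hi)]
  | m t u iht ihu =>
    simp only [Tm.vars, List.mem_append] at h
    simp only [ev]; rw [iht fun i hi => h i (.inl hi), ihu fun i hi => h i (.inr hi)]

theorem ev_nm (t : Tm ℕ) (w : ℕ → ℕ) : q.ev t (fun i => q.nm (w i)) = q.nm (t.ev w) := by
  induction t with
  | v i => rfl
  | z => rfl
  | s t ih => simp only [ev, Tm.ev]; rw [ih]; rfl
  | a t u iht ihu => simp only [ev, Tm.ev]; rw [iht, ihu, nm_add]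
  | m t u iht ihu => simp only [ev, Tm.ev]; rw [iht, ihu, nm_mul]

end Q

/-! ### formulas -/

/-- the value of the term is `z'` -/
def F : Tm ℕ → ℕ → ℕ → Fml
  | .v i, z, _ => .eq i z
  | .z, z, _ => .zero z
  | .s t, z, n => .ex n (.and (F t n (n + 1)) (.succ n z))
  | .a t u, z, n => .ex n (.ex (n + 1) (.and (.and (F t n (n + 2)) (F u (n + 1) (n + 2)))
      (.add n (n + 1) z)))
  | .m t u, z, n => .ex n (.ex (n + 1) (.and (.and (F t n (n + 2)) (F u (n + 1) (n + 2)))
      (.mul n (n + 1) z)))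

theorem sat_F (q : Q S) : ∀ (t : Tm ℕ) (z n : ℕ) (v : ℕ → S.M), z < n → (∀ i ∈ t.vars, i < n) →
    (Sat S (F t z n) v ↔ v z = q.ev t v)
  | .v i, z, n, v, _, _ => by simp only [F, sat_eq, Q.ev]; exact eq_comm
  | .z, z, n, v, _, _ => by simp only [F, sat_zero, Q.ev, q.zero_iff]
  | .s t, z, n, v, hz, hi => by
    simp only [Tm.vars] at hi
    have e : ∀ b, q.ev t (upd v n b) = q.ev t v := fun b =>
      q.ev_congr t _ _ fun i h => upd_ne _ _ (hi i h).ne
    simp only [F, sat_ex, sat_and, sat_succ, Q.ev]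
    simp only [sat_F q t n (n + 1) _ (by omega) (fun i h => (hi i h).trans (by omega)), e,
      upd_same, upd_ne _ _ hz.ne, q.succ_iff, exists_eq_left]
  | .a t u, z, n, v, hz, hi => by
    simp only [Tm.vars, List.mem_append] at hi
    have e : ∀ b b', q.ev t (upd (upd v n b) (n + 1) b') = q.ev t v := fun b b' =>
      q.ev_congr t _ _ fun i h => by
        have := hi i (.inl h)
        rw [upd_ne _ _ (by omega), upd_ne _ _ (by omega)]
    have e' : ∀ b b', q.ev u (upd (upd v n b) (n + 1) b') = q.ev u v := fun b b' =>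
      q.ev_congr u _ _ fun i h => by
        have := hi i (.inr h)
        rw [upd_ne _ _ (by omega), upd_ne _ _ (by omega)]
    have e1 : ∀ b b', upd (upd v n b) (n + 1) b' n = b := fun b b' => by
      rw [upd_ne _ _ (by omega), upd_same]
    have e2 : ∀ b b', upd (upd v n b) (n + 1) b' z = v z := fun b b' => by
      rw [upd_ne _ _ (by omega), upd_ne _ _ (by omega)]
    simp only [F, sat_ex, sat_and, sat_add, Q.ev]
    simp only [sat_F q t n (n + 2) _ (by omega) (fun i h => (hi i (.inl h)).trans (by omega)),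
      sat_F q u (n + 1) (n + 2) _ (by omega) (fun i h => (hi i (.inr h)).trans (by omega)), e, e',
      upd_same, e1, e2, q.add_iff]
    constructor
    · rintro ⟨b, b', ⟨rfl, rfl⟩, h⟩; exact h
    · exact fun h => ⟨_, _, ⟨rfl, rfl⟩, h⟩
  | .m t u, z, n, v, hz, hi => by
    simp only [Tm.vars, List.mem_append] at hi
    have e : ∀ b b', q.ev t (upd (upd v n b) (n + 1) b') = q.ev t v := fun b b' =>
      q.ev_congr t _ _ fun i h => by
        have := hi i (.inl h)
        rw [upd_ne _ _ (by omega), upd_ne _ _ (by omega)]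
    have e' : ∀ b b', q.ev u (upd (upd v n b) (n + 1) b') = q.ev u v := fun b b' =>
      q.ev_congr u _ _ fun i h => by
        have := hi i (.inr h)
        rw [upd_ne _ _ (by omega), upd_ne _ _ (by omega)]
    have e1 : ∀ b b', upd (upd v n b) (n + 1) b' n = b := fun b b' => by
      rw [upd_ne _ _ (by omega), upd_same]
    have e2 : ∀ b b', upd (upd v n b) (n + 1) b' z = v z := fun b b' => by
      rw [upd_ne _ _ (by omega), upd_ne _ _ (by omega)]
    simp only [F, sat_ex, sat_and, sat_mul, Q.ev]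
    simp only [sat_F q t n (n + 2) _ (by omega) (fun i h => (hi i (.inl h)).trans (by omega)),
      sat_F q u (n + 1) (n + 2) _ (by omega) (fun i h => (hi i (.inr h)).trans (by omega)), e, e',
      upd_same, e1, e2, q.mul_iff]
    constructor
    · rintro ⟨b, b', ⟨rfl, rfl⟩, h⟩; exact h
    · exact fun h => ⟨_, _, ⟨rfl, rfl⟩, h⟩

theorem free_F : ∀ (t : Tm ℕ) (z n x : ℕ), (F t z n).Free x → x = z ∨ x ∈ t.vars
  | .v i, z, n, x, h => by simp [F, Fm.Free, Tm.vars] at *; tauto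
  | .z, z, n, x, h => by simp [F, Fm.Free, Tm.vars] at *; tauto
  | .s t, z, n, x, h => by
    simp only [F, Fm.ex, Fm.and, Fm.neg, Fm.Free, or_false, Tm.vars] at *
    rcases h with ⟨h1, h2 | h2⟩
    · rcases free_F t _ _ _ h2 with h3 | h3
      · exact absurd h3 h1
      · exact .inr h3
    · rcases h2 with h2 | h2
      · exact absurd h2 h1
      · exact .inl h2
  | .a t u, z, n, x, h => by
    simp only [F, Fm.ex, Fm.and, Fm.neg, Fm.Free, or_false, Tm.vars, List.mem_append] at *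
    obtain ⟨h1, h2, h3⟩ := h
    rcases h3 with (h3 | h3) | h3
    · rcases free_F t _ _ _ h3 with h4 | h4
      · exact absurd h4 h1
      · exact .inr (.inl h4)
    · rcases free_F u _ _ _ h3 with h4 | h4
      · exact absurd h4 h2
      · exact .inr (.inr h4)
    · rcases h3 with h3 | h3 | h3
      · exact absurd h3 h1
      · exact absurd h3 h2
      · exact .inl h3
  | .m t u, z, n, x, h => by
    simp only [F, Fm.ex, Fm.and, Fm.neg, Fm.Free, or_false, Tm.vars, List.mem_append] at *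
    obtain ⟨h1, h2, h3⟩ := h
    rcases h3 with (h3 | h3) | h3
    · rcases free_F t _ _ _ h3 with h4 | h4
      · exact absurd h4 h1
      · exact .inr (.inl h4)
    · rcases free_F u _ _ _ h3 with h4 | h4
      · exact absurd h4 h2
      · exact .inr (.inr h4)
    · rcases h3 with h3 | h3 | h3
      · exact absurd h3 h1
      · exact absurd h3 h2
      · exact .inl h3

theorem arith_F : ∀ (t : Tm ℕ) (z n : ℕ), Arith (F t z n)
  | .v i, z, n => trivial
  | .z, z, n => trivial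
  | .s t, z, n => by simp [F, Fm.ex, Fm.and, Fm.neg, Arith, arith_F t]
  | .a t u, z, n => by simp [F, Fm.ex, Fm.and, Fm.neg, Arith, arith_F t, arith_F u]
  | .m t u, z, n => by simp [F, Fm.ex, Fm.and, Fm.neg, Arith, arith_F t, arith_F u]

/-- the terms have the same value -/
def eqF (t u : Tm ℕ) (n : ℕ) : Fml := .ex n (.and (F t n (n + 1)) (F u n (n + 1)))

theorem sat_eqF (q : Q S) (t u : Tm ℕ) (n : ℕ) (v : ℕ → S.M) (h : ∀ i ∈ t.vars ++ u.vars, i < n) :
    Sat S (eqF t u n) v ↔ q.ev t v = q.ev u v := by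
  simp only [List.mem_append] at h
  have e : ∀ b, q.ev t (upd v n b) = q.ev t v := fun b =>
    q.ev_congr t _ _ fun i hi => upd_ne _ _ (h i (.inl hi)).ne
  have e' : ∀ b, q.ev u (upd v n b) = q.ev u v := fun b =>
    q.ev_congr u _ _ fun i hi => upd_ne _ _ (h i (.inr hi)).ne
  simp only [eqF, sat_ex, sat_and]
  simp only [sat_F q t n (n + 1) _ (by omega) (fun i hi => (h i (.inl hi)).trans (by omega)),
    sat_F q u n (n + 1) _ (by omega) (fun i hi => (h i (.inr hi)).trans (by omega)), e, e',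
    upd_same, exists_eq_left]

theorem free_eqF (t u : Tm ℕ) (n x : ℕ) (h : (eqF t u n).Free x) : x ∈ t.vars ++ u.vars := by
  simp only [eqF, Fm.ex, Fm.and, Fm.neg, Fm.Free, or_false] at h
  obtain ⟨h1, h2 | h2⟩ := h
  · rcases free_F t _ _ _ h2 with h3 | h3
    · exact absurd h3 h1
    · exact List.mem_append_left _ h3
  · rcases free_F u _ _ _ h2 with h3 | h3
    · exact absurd h3 h1
    · exact List.mem_append_right _ h3

theorem arith_eqF (t u : Tm ℕ) (n : ℕ) : Arith (eqF t u n) := by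
  simp [eqF, Fm.ex, Fm.and, Fm.neg, Arith, arith_F]

/-- `x ≤ y` -/
def leF (x y n : ℕ) : Fml := .ex n (.add n x y)

theorem sat_leF (q : Q S) {x y n : ℕ} (hx : x ≠ n) (hy : y ≠ n) (v : ℕ → S.M) :
    Sat S (leF x y n) v ↔ q.Le (v x) (v y) := by
  simp only [leF, sat_ex, sat_add, upd_same, upd_ne _ _ hx, upd_ne _ _ hy, q.add_iff, Q.Le]
  exact exists_congr fun _ => eq_comm

/-- bounded existential quantifiers -/
def exB (N : ℕ) (L : List ℕ) (φ : Fml) : Fml :=
  L.foldr (fun y ψ => .ex y (.and (leF y N (N + 1)) ψ)) φ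

theorem sat_exB (q : Q S) (N : ℕ) (φ : Fml) : ∀ (L : List ℕ) (v : ℕ → S.M), (∀ y ∈ L, y < N) →
    (Sat S (exB N L φ) v ↔ ∃ u : ℕ → S.M, (∀ y ∉ L, u y = v y) ∧
      (∀ y ∈ L, q.Le (u y) (v N)) ∧ Sat S φ u)
  | [], v, _ => by
    constructor
    · exact fun h => ⟨v, fun _ _ => rfl, by simp, h⟩
    · rintro ⟨u, h1, -, h2⟩
      have : u = v := funext fun y => h1 y (by simp)
      exact this ▸ h2
  | y :: L, v, h => by
    have hy : y < N := h y (by simp)
    show Sat S (.ex y (.and (leF y N (N + 1)) (exB N L φ))) v ↔ _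
    simp only [sat_ex, sat_and]
    simp only [sat_leF q (show y ≠ N + 1 by omega) (show N ≠ N + 1 by omega), upd_same,
      upd_ne _ _ hy.ne',
      sat_exB q N φ L _ fun x hx => h x (List.mem_cons_of_mem _ hx)]
    constructor
    · rintro ⟨b, hb, u, h1, h2, h3⟩
      refine ⟨u, fun x hx => ?_, fun x hx => ?_, h3⟩
      · rw [List.mem_cons, not_or] at hx
        rw [h1 x hx.2, upd_ne _ _ hx.1]
      · by_cases hxL : x ∈ L
        · exact h2 x hxL
        · have hxy : x = y := by simpa [hxL] using hx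
          rw [h1 x hxL, hxy, upd_same]
          exact hb
    · rintro ⟨u, h1, h2, h3⟩
      refine ⟨u y, h2 y (by simp), u, fun x hx => ?_,
        fun x hx => h2 x (List.mem_cons_of_mem _ hx), h3⟩
      by_cases hxy : x = y
      · rw [hxy, upd_same]
      · rw [upd_ne _ _ hxy]
        exact h1 x (by simp [hxy, hx])

theorem free_exB (N : ℕ) (φ : Fml) : ∀ (L : List ℕ) (x : ℕ), (exB N L φ).Free x →
    x = N ∨ (φ.Free x ∧ x ∉ L)
  | [], x, h => .inr ⟨h, by simp⟩
  | y :: L, x, h => by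
    have h' : (Fm.ex y (.and (leF y N (N + 1)) (exB N L φ))).Free x := h
    simp only [Fm.ex, Fm.and, Fm.neg, Fm.Free, or_false, leF] at h'
    obtain ⟨h1, h2 | h2⟩ := h'
    · obtain ⟨h2, h3 | h3 | h3⟩ := h2
      · exact absurd h3 h2
      · exact absurd h3 h1
      · exact .inl h3
    · rcases free_exB N φ L x h2 with h3 | h3
      · exact .inl h3
      · exact .inr ⟨h3.1, by simp [h1, h3.2]⟩

theorem arith_exB (N : ℕ) (φ : Fml) (hφ : Arith φ) : ∀ (L : List ℕ), Arith (exB N L φ)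
  | [] => hφ
  | y :: L => by
    show Arith (.ex y (.and (leF y N (N + 1)) (exB N L φ)))
    simp [Fm.ex, Fm.and, Fm.neg, Arith, leF, arith_exB N φ hφ L]

end Pool.Agent.TH838.J1549
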